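import Mathlib
import Pool.Agent.Helper543.PlaneC

/-! Upper bound for the minimum number of circles: points of the unit circle in antipodal pairs,
together with the centre. -/

namespace Pool.Agent.H34C.Upper

open Finset Pool.Agent.Helper543.PlaneC

noncomputable section

/-- a point of the upper unit half circle -/
def u (t : ℕ) : Plane := !₂[(1 - (t : ℝ) ^ 2) / (1 + (t : ℝ) ^ 2), 2 * t / (1 + (t : ℝ) ^ 2)]

lemma u0 (t : ℕ) : (u t) 0 = (1 - (t : ℝ) ^ 2) / (1 + (t : ℝ) ^ 2) := by simp [u]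
lemma u1 (t : ℕ) : (u t) 1 = 2 * t / (1 + (t : ℝ) ^ 2) := by simp [u]

lemma u_norm (t : ℕ) : (u t) 0 ^ 2 + (u t) 1 ^ 2 = 1 := by
  rw [u0, u1]
  have : (1 + (t : ℝ) ^ 2) ≠ 0 := by positivity
  field_simp
  ring

lemma u_inj : Function.Injective u := by
  intro s t h
  have h0 : (u s) 0 = (u t) 0 := by rw [h]
  rw [u0, u0] at h0
  have h1 : (1 + (s : ℝ) ^ 2) ≠ 0 := by positivity
  have h2 : (1 + (t : ℝ) ^ 2) ≠ 0 := by positivity
  rw [div_eq_div_iff h1 h2] at h0
  have h3 : (s : ℝ) ^ 2 = (t : ℝ) ^ 2 := by nlinarith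
  have h4 : (s : ℝ) = t := by
    rwa [sq_eq_sq₀ (by positivity) (by positivity)] at h3
  exact_mod_cast h4

lemma u_ne_neg (s t : ℕ) : u s ≠ - u t := by
  intro h
  have h0 : (u s) 0 = -(u t) 0 := by rw [h]; simp
  have h1 : (u s) 1 = -(u t) 1 := by rw [h]; simp
  rw [u0, u0] at h0
  rw [u1, u1] at h1
  have hs : 0 < (1 + (s : ℝ) ^ 2) := by positivity
  have ht : 0 < (1 + (t : ℝ) ^ 2) := by positivity
  have a1 : 0 ≤ 2 * (s : ℝ) / (1 + (s : ℝ) ^ 2) := by positivity
  have a2 : 0 ≤ 2 * (t : ℝ) / (1 + (t : ℝ) ^ 2) := by positivity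
  have b1 : 2 * (s : ℝ) / (1 + (s : ℝ) ^ 2) = 0 := by linarith
  have b2 : 2 * (t : ℝ) / (1 + (t : ℝ) ^ 2) = 0 := by linarith
  have c1 : (s : ℝ) = 0 := by
    rw [div_eq_zero_iff] at b1
    rcases b1 with b1 | b1
    · linarith
    · exact absurd b1 hs.ne'
  have c2 : (t : ℝ) = 0 := by
    rw [div_eq_zero_iff] at b2
    rcases b2 with b2 | b2
    · linarith
    · exact absurd b2 ht.ne'
  rw [c1, c2] at h0
  norm_num at h0

/-- the points of the unit circle -/
def S (N : ℕ) : Finset Plane :=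
  (range (N - N / 2)).image u ∪ (range (N / 2)).image (fun t => - u t)

lemma card_S (N : ℕ) : (S N).card = N := by
  rw [S, card_union_of_disjoint]
  · rw [card_image_of_injective _ u_inj, card_image_of_injective, card_range, card_range]
    · omega
    · intro a b h
      exact u_inj (neg_injective h)
  · rw [Finset.disjoint_left]
    intro x hx hx'
    simp only [mem_image, mem_range] at hx hx'
    obtain ⟨a, _, rfl⟩ := hx
    obtain ⟨b, _, hb⟩ := hx'
    exact u_ne_neg a b hb.symm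

lemma S_norm {N : ℕ} {x : Plane} (hx : x ∈ S N) : x 0 ^ 2 + x 1 ^ 2 = 1 := by
  simp only [S, mem_union, mem_image, mem_range] at hx
  rcases hx with ⟨a, _, rfl⟩ | ⟨a, _, rfl⟩
  · exact u_norm a
  · simpa using u_norm a

lemma On_unit {x : Plane} (hx : x 0 ^ 2 + x 1 ^ 2 = 1) : On 0 0 1 (phi x) := by
  simp only [On, phi]; linarith

lemma zero_notMem (N : ℕ) : (0 : Plane) ∉ S N := by
  intro h
  have := S_norm h
  simp at this

/-- the configuration -/
def P (N : ℕ) : Finset Plane := insert 0 (S N)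

lemma card_P (N : ℕ) : (P N).card = N + 1 := by
  rw [P, card_insert_of_notMem (zero_notMem N), card_S]

/-- three points of the unit circle determine it -/
lemma sphere_unit {c : Plane} {r : ℝ} (hr : 0 < r) {x y z : Plane}
    (hx : x 0 ^ 2 + x 1 ^ 2 = 1) (hy : y 0 ^ 2 + y 1 ^ 2 = 1) (hz : z 0 ^ 2 + z 1 ^ 2 = 1)
    (hxy : x ≠ y) (hxz : x ≠ z) (hyz : y ≠ z)
    (mx : x ∈ Metric.sphere c r) (my : y ∈ Metric.sphere c r) (mz : z ∈ Metric.sphere c r) :
    Metric.sphere c r = Metric.sphere (0 : Plane) 1 := by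
  rw [mem_sphere_iff c hr] at mx my mz
  have hcr := cr_ne_of_On mx my mz (fun e => hxy (phi_inj e)) (fun e => hxz (phi_inj e))
    (fun e => hyz (phi_inj e))
  obtain ⟨e1, e2, e3⟩ := On_unique hcr mx my mz (On_unit hx) (On_unit hy) (On_unit hz)
  ext w
  rw [mem_sphere_iff c hr, mem_sphere_iff 0 one_pos]
  rw [e3, e1, e2]
  simp

lemma zero_notMem_unit : (0 : Plane) ∉ Metric.sphere (0 : Plane) 1 := by
  simp

open Classical in
/-- the points of the unit circle on `C` -/
def T (N : ℕ) (C : Set Plane) : Finset Plane := (S N).filter (· ∈ C)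

lemma mem_T {N : ℕ} {C : Set Plane} {x : Plane} : x ∈ T N C ↔ x ∈ S N ∧ x ∈ C := by
  simp [T]

/-- the antipodal pairs -/
def Pairs (N : ℕ) : Finset (Finset Plane) := (range (N / 2)).image (fun t => {u t, -u t})

lemma card_Pairs (N : ℕ) : (Pairs N).card = N / 2 := by
  rw [Pairs, card_image_of_injOn, card_range]
  intro a _ b _ h
  simp only at h
  have : u a ∈ ({u b, -u b} : Finset Plane) := by rw [← h]; simp
  simp only [mem_insert, mem_singleton] at this
  rcases this with h | h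
  · exact u_inj h
  · exact absurd h (u_ne_neg a b)

lemma Pairs_subset (N : ℕ) : Pairs N ⊆ powersetCard 2 (S N) := by
  intro B hB
  simp only [Pairs, mem_image, mem_range] at hB
  obtain ⟨t, ht, rfl⟩ := hB
  rw [mem_powersetCard]
  constructor
  · intro x hx
    simp only [mem_insert, mem_singleton] at hx
    simp only [S, mem_union, mem_image, mem_range]
    rcases hx with rfl | rfl
    · left; exact ⟨t, by omega, rfl⟩
    · right; exact ⟨t, ht, rfl⟩
  · exact card_pair (u_ne_neg t t)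

lemma card_T_le {N : ℕ} {c : Plane} {r : ℝ} (hr : 0 < r)
    (hne : Metric.sphere c r ≠ Metric.sphere (0 : Plane) 1) :
    (T N (Metric.sphere c r)).card ≤ 2 := by
  by_contra hcon
  obtain ⟨x, y, z, hx, hy, hz, hxy, hxz, hyz⟩ := two_lt_card_iff.1 (not_le.1 hcon)
  rw [mem_T] at hx hy hz
  exact hne (sphere_unit hr (S_norm hx.1) (S_norm hy.1) (S_norm hz.1) hxy hxz hyz hx.2 hy.2 hz.2)

lemma ncard_inter {N : ℕ} {C : Set Plane} :
    ((P N : Set Plane) ∩ C).ncard ≤ (T N C).card + 1 ∧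
      ((0 : Plane) ∉ C → ((P N : Set Plane) ∩ C).ncard ≤ (T N C).card) := by
  classical
  constructor
  · have h : ((P N : Set Plane) ∩ C) ⊆ ((insert 0 (T N C) : Finset Plane) : Set Plane) := by
      rintro x ⟨hx, hxC⟩
      simp only [P, coe_insert, Set.mem_insert_iff, mem_coe] at hx ⊢
      rcases hx with rfl | hx
      · left; rfl
      · right; exact mem_T.2 ⟨hx, hxC⟩
    calc _ ≤ ((insert 0 (T N C) : Finset Plane) : Set Plane).ncard :=
          Set.ncard_le_ncard h (Finset.finite_toSet _)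
      _ = (insert 0 (T N C) : Finset Plane).card := Set.ncard_coe_finset _
      _ ≤ _ := card_insert_le _ _
  · intro h0
    have h : ((P N : Set Plane) ∩ C) ⊆ ((T N C : Finset Plane) : Set Plane) := by
      rintro x ⟨hx, hxC⟩
      simp only [P, coe_insert, Set.mem_insert_iff, mem_coe] at hx ⊢
      rcases hx with rfl | hx
      · exact absurd hxC h0
      · exact mem_T.2 ⟨hx, hxC⟩
    calc _ ≤ ((T N C : Finset Plane) : Set Plane).ncard :=
          Set.ncard_le_ncard h (Finset.finite_toSet _)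
      _ = _ := Set.ncard_coe_finset _

lemma circle_props {N : ℕ} {C : Set Plane} (hC : C ∈ Circles (P N : Set Plane))
    (hne : C ≠ Metric.sphere (0 : Plane) 1) : (0 : Plane) ∈ C ∧ (T N C).card = 2 := by
  obtain ⟨⟨c, r, hr, rfl⟩, h3⟩ := hC
  have h1 := card_T_le (N := N) hr hne
  obtain ⟨h4, h5⟩ := ncard_inter (N := N) (C := Metric.sphere c r)
  by_cases h0 : (0 : Plane) ∈ Metric.sphere c r
  · exact ⟨h0, by omega⟩
  · have := h5 h0
    omega

lemma T_mem {N : ℕ} {C : Set Plane} (hC : C ∈ Circles (P N : Set Plane))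
    (hne : C ≠ Metric.sphere (0 : Plane) 1) : T N C ∈ powersetCard 2 (S N) \ Pairs N := by
  obtain ⟨h0, h2⟩ := circle_props hC hne
  rw [mem_sdiff, mem_powersetCard]
  refine ⟨⟨fun x hx => (mem_T.1 hx).1, h2⟩, ?_⟩
  intro hp
  simp only [Pairs, mem_image, mem_range] at hp
  obtain ⟨t, ht, hT⟩ := hp
  have ha : u t ∈ T N C := by rw [← hT]; simp
  have hb : -u t ∈ T N C := by rw [← hT]; simp
  rw [mem_T] at ha hb
  obtain ⟨⟨c, r, hr, rfl⟩, -⟩ := hC
  have hz : u t ≠ 0 := fun e => zero_notMem N (e ▸ ha.1)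
  have hz' : -u t ≠ 0 := fun e => hz (neg_eq_zero.1 e)
  have := cr_ne_of_On ((mem_sphere_iff c hr _).1 h0) ((mem_sphere_iff c hr _).1 ha.2)
    ((mem_sphere_iff c hr _).1 hb.2) (fun e => hz (phi_inj e).symm) (fun e => hz' (phi_inj e).symm)
    (fun e => u_ne_neg t t (phi_inj e))
  apply this
  simp only [Helper543.Melchior.cr, phi, PiLp.neg_apply, PiLp.zero_apply]
  ring

lemma T_inj {N : ℕ} : Set.InjOn (T N)
    (Circles (P N : Set Plane) \ {Metric.sphere (0 : Plane) 1}) := by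
  rintro C ⟨hC, hne⟩ C' ⟨hC', hne'⟩ h
  obtain ⟨h0, h2⟩ := circle_props hC hne
  obtain ⟨h0', h2'⟩ := circle_props hC' hne'
  obtain ⟨a, b, hab, hT⟩ := card_eq_two.1 h2
  have ha : a ∈ T N C := by rw [hT]; simp
  have hb : b ∈ T N C := by rw [hT]; simp
  have ha' : a ∈ T N C' := h ▸ ha
  have hb' : b ∈ T N C' := h ▸ hb
  rw [mem_T] at ha hb ha' hb'
  obtain ⟨⟨c, r, hr, rfl⟩, -⟩ := hC
  obtain ⟨⟨c', r', hr', rfl⟩, -⟩ := hC'
  have za : (0 : Plane) ≠ a := fun e => zero_notMem N (e ▸ ha.1)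
  have zb : (0 : Plane) ≠ b := fun e => zero_notMem N (e ▸ hb.1)
  rw [mem_sphere_iff c hr] at h0
  rw [mem_sphere_iff c' hr'] at h0'
  have ha2 := (mem_sphere_iff c hr _).1 ha.2
  have hb2 := (mem_sphere_iff c hr _).1 hb.2
  have ha2' := (mem_sphere_iff c' hr' _).1 ha'.2
  have hb2' := (mem_sphere_iff c' hr' _).1 hb'.2
  have hcr := cr_ne_of_On h0 ha2 hb2 (fun e => za (phi_inj e)) (fun e => zb (phi_inj e))
    (fun e => hab (phi_inj e))
  obtain ⟨e1, e2, e3⟩ := On_unique hcr h0 ha2 hb2 h0' ha2' hb2'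
  ext w
  rw [mem_sphere_iff c hr, mem_sphere_iff c' hr']
  rw [e3, e1, e2]

theorem ncard_le (N : ℕ) :
    (Circles (P N : Set Plane)).ncard ≤ 1 + (N.choose 2 - N / 2) := by
  have hsub : Circles (P N : Set Plane) ⊆ insert (Metric.sphere (0 : Plane) 1)
      (Circles (P N : Set Plane) \ {Metric.sphere (0 : Plane) 1}) := by
    intro C hC
    by_cases h : C = Metric.sphere (0 : Plane) 1
    · left; exact h
    · right; exact ⟨hC, h⟩
  have hfin : (Circles (P N : Set Plane) \ {Metric.sphere (0 : Plane) 1}).Finite :=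
    (circles_finite (P N)).subset Set.diff_subset
  have h1 : (Circles (P N : Set Plane) \ {Metric.sphere (0 : Plane) 1}).ncard ≤
      ((powersetCard 2 (S N) \ Pairs N : Finset (Finset Plane)) : Set (Finset Plane)).ncard := by
    apply Set.ncard_le_ncard_of_injOn (T N) _ T_inj (Finset.finite_toSet _)
    rintro C ⟨hC, hne⟩
    exact mem_coe.2 (T_mem hC hne)
  rw [Set.ncard_coe_finset, card_sdiff_of_subset (Pairs_subset N), card_powersetCard, card_S,
    card_Pairs] at h1
  calc _ ≤ (insert (Metric.sphere (0 : Plane) 1)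
      (Circles (P N : Set Plane) \ {Metric.sphere (0 : Plane) 1})).ncard :=
        Set.ncard_le_ncard hsub (hfin.insert _)
    _ ≤ (Circles (P N : Set Plane) \ {Metric.sphere (0 : Plane) 1}).ncard + 1 :=
        Set.ncard_insert_le _ _
    _ ≤ _ := by omega

theorem admissible (N : ℕ) (hN : 3 ≤ N) : Admissible (P N : Set Plane) := by
  have hc : 2 < (S N).card := by rw [card_S]; omega
  obtain ⟨x, y, z, hx, hy, hz, hxy, hxz, hyz⟩ := two_lt_card_iff.1 hc
  have mx : x ∈ (P N : Set Plane) := by simp [P, hx]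
  have my : y ∈ (P N : Set Plane) := by simp [P, hy]
  have mz : z ∈ (P N : Set Plane) := by simp [P, hz]
  constructor
  · intro hcol
    rw [collinear_iff_cr] at hcol
    exact cr_ne_of_On (On_unit (S_norm hx)) (On_unit (S_norm hy)) (On_unit (S_norm hz))
      (fun e => hxy (phi_inj e)) (fun e => hxz (phi_inj e)) (fun e => hyz (phi_inj e))
      (hcol x mx y my z mz)
  · rintro ⟨c, r, hr, hsub⟩
    have := sphere_unit hr (S_norm hx) (S_norm hy) (S_norm hz) hxy hxz hyz (hsub mx) (hsub my)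
      (hsub mz)
    have h0 : (0 : Plane) ∈ Metric.sphere c r := hsub (by simp [P])
    rw [this] at h0
    exact zero_notMem_unit h0

lemma arith (N : ℕ) (hN : 3 ≤ N) : 1 + (N.choose 2 - N / 2) = (N - 1) ^ 2 / 2 + 1 := by
  rw [Nat.choose_two_right]
  obtain ⟨k, hk | hk⟩ : ∃ k, N = 2 * k ∨ N = 2 * k + 1 := ⟨N / 2, by omega⟩
  · subst hk
    have h1 : 2 * k * (2 * k - 1) / 2 = k * (2 * k - 1) := by
      rw [mul_assoc]; exact Nat.mul_div_cancel_left _ (by norm_num)
    have h2 : 2 * k / 2 = k := by omega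
    rw [h1, h2]
    obtain ⟨m, rfl⟩ : ∃ m, k = m + 1 := ⟨k - 1, by omega⟩
    have e1 : 2 * (m + 1) - 1 = 2 * m + 1 := by omega
    rw [e1]
    have e2 : (2 * m + 1) ^ 2 = 2 * (2 * m * (m + 1)) + 1 := by ring
    have e3 : (m + 1) * (2 * m + 1) = 2 * m * (m + 1) + (m + 1) := by ring
    rw [e2, e3]
    omega
  · subst hk
    have e0 : 2 * k + 1 - 1 = 2 * k := by omega
    have h1 : (2 * k + 1) * (2 * k + 1 - 1) / 2 = (2 * k + 1) * k := by
      rw [e0, show (2 * k + 1) * (2 * k) = 2 * ((2 * k + 1) * k) by ring]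
      exact Nat.mul_div_cancel_left _ (by norm_num)
    have h2 : (2 * k + 1) / 2 = k := by omega
    rw [h1, h2, e0]
    have e2 : (2 * k) ^ 2 = 2 * (2 * (k * k)) := by ring
    have e3 : (2 * k + 1) * k = 2 * (k * k) + k := by ring
    rw [e2, e3]
    omega

end

end Pool.Agent.H34C.Upper
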